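import Pool.Agent.Helper50.BC.Goals

/-!
# Packet EIN of project BC of helper50
-/

open Pool.Agent.Helper50.BC

namespace Pool.Agent.Helper35.BC

theorem goalEIN : G_EIN := by
  intro q j L B v t s z ζ hL1 hL2 hB hz ht hs
  have ha : 0 ≤ ‖v‖ := norm_nonneg _
  have hb : 0 ≤ ‖ζ‖ := norm_nonneg _
  have hτ0 : 0 ≤ ‖t‖ := norm_nonneg _
  have hσ0 : 0 ≤ ‖s‖ := norm_nonneg _
  have hz0 : 0 ≤ ‖z‖ := norm_nonneg _
  -- bound of t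
  have h1 : ‖t‖ ≤ 303 / 200 * ‖ζ‖ := by
    have e1 : ‖t‖ ^ 2 = inner ℝ ζ (L t) := by
      rw [← ht t, real_inner_self_eq_norm_sq]
    have e2 : inner ℝ ζ (L t) ≤ ‖ζ‖ * ‖L t‖ := real_inner_le_norm _ _
    have e3 : ‖ζ‖ * ‖L t‖ ≤ ‖ζ‖ * (303 / 200 * ‖t‖) :=
      mul_le_mul_of_nonneg_left (hL2 t) hb
    by_contra hcon
    push Not at hcon
    have : 0 < ‖t‖ := lt_of_le_of_lt (by positivity) hcon
    nlinarith
  -- bound of s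
  have h2 : ‖s‖ ≤ 63 / 160 * ‖v‖ := by
    have e1 : ‖s‖ ^ 2 = inner ℝ z (B s) := by
      rw [← hs s, real_inner_self_eq_norm_sq]
    have e2 : inner ℝ z (B s) ≤ ‖z‖ * ‖B s‖ := real_inner_le_norm _ _
    have e3 : ‖z‖ * ‖B s‖ ≤ 1 / 10 * (63 / 16 * (‖v‖ * ‖s‖)) :=
      mul_le_mul hz (hB s) (norm_nonneg _) (by norm_num)
    by_contra hcon
    push Not at hcon
    have : 0 < ‖s‖ := lt_of_le_of_lt (by positivity) hcon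
    nlinarith
  have h3 : ‖L v + ζ‖ ^ 2 = ‖L v‖ ^ 2 + 2 * inner ℝ t v + ‖ζ‖ ^ 2 := by
    rw [norm_add_sq_real, ht v, real_inner_comm]
  have h4 : -(‖t‖ * ‖v‖) ≤ inner ℝ t v := by
    have := abs_real_inner_le_norm t v
    exact (abs_le.1 this).1
  have h5 : inner ℝ t v ≤ ‖t‖ * ‖v‖ := real_inner_le_norm _ _
  have h6 : ‖t‖ - ‖s‖ ≤ ‖t + s‖ := by
    have := norm_sub_norm_le t (-s)
    rw [norm_neg, sub_neg_eq_add] at this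
    exact this
  have h7 : ‖t + s‖ ≤ ‖t‖ + ‖s‖ := norm_add_le _ _
  have h8 : (297 / 200 * ‖v‖) ^ 2 ≤ ‖L v‖ ^ 2 :=
    pow_le_pow_left₀ (by positivity) (hL1 v) 2
  have h9 : ‖L v‖ ^ 2 ≤ (303 / 200 * ‖v‖) ^ 2 :=
    pow_le_pow_left₀ (norm_nonneg _) (hL2 v) 2
  have h10 : ‖t‖ ^ 2 ≤ (303 / 200 * ‖ζ‖) ^ 2 := pow_le_pow_left₀ hτ0 h1 2
  constructor
  · rw [h3]
    generalize ‖L v‖ ^ 2 = p at *
    generalize inner ℝ t v = i at *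
    generalize ‖t + s‖ = r at *
    generalize ‖t‖ = τ at *
    generalize ‖s‖ = σ at *
    generalize ‖v‖ = a at *
    generalize ‖ζ‖ = b at *
    by_cases hc : 63 / 160 * a ≤ τ
    · have h11 : (τ - 63 / 160 * a) ^ 2 ≤ r ^ 2 :=
        pow_le_pow_left₀ (by linarith) (by linarith) 2
      nlinarith [sq_nonneg (a - 1042 / 1000 * τ), sq_nonneg τ, sq_nonneg a]
    · push Not at hc
      have h11 : 0 ≤ r ^ 2 := sq_nonneg r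
      have h12 : τ * a ≤ 63 / 160 * a * a := mul_le_mul_of_nonneg_right hc.le ha
      nlinarith [sq_nonneg b, sq_nonneg a]
  · rw [h3]
    have h11 : ‖t + s‖ ^ 2 ≤ (303 / 200 * ‖ζ‖ + 63 / 160 * ‖v‖) ^ 2 :=
      pow_le_pow_left₀ (norm_nonneg _) (by linarith) 2
    have h12 : ‖t‖ * ‖v‖ ≤ 303 / 200 * ‖ζ‖ * ‖v‖ := mul_le_mul_of_nonneg_right h1 ha
    have h13 : (303 / 200 * ‖v‖ + ‖ζ‖) ^ 2 ≤ ((303 / 200) ^ 2 + 1) * (‖v‖ ^ 2 + ‖ζ‖ ^ 2) := by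
      nlinarith [sq_nonneg (‖v‖ - 303 / 200 * ‖ζ‖)]
    have h14 : (303 / 200 * ‖ζ‖ + 63 / 160 * ‖v‖) ^ 2 ≤
        ((303 / 200) ^ 2 + (63 / 160) ^ 2) * (‖v‖ ^ 2 + ‖ζ‖ ^ 2) := by
      nlinarith [sq_nonneg (303 / 200 * ‖v‖ - 63 / 160 * ‖ζ‖)]
    nlinarith [sq_nonneg ‖v‖, sq_nonneg ‖ζ‖]

end Pool.Agent.Helper35.BC
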