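import Pool.Agent.Helper50.BC.Goals

/-!
# Packet RAD of project BC of helper50
-/

open Pool.Agent.Helper50.BC
open Real

namespace Pool.Agent.Helper35.BC

/-- peeling the first sign -/
theorem sum_succ {n : ℕ} (u : Fin (n + 1) → ℝ) (f : ℝ → ℝ) (x : ℝ) :
    ∑ b : Fin (n + 1) → Bool, f (x + sgsum u b) =
      ∑ b : Fin n → Bool, f ((x + u 0) + sgsum (fun i => u i.succ) b) +
      ∑ b : Fin n → Bool, f ((x - u 0) + sgsum (fun i => u i.succ) b) := by
  rw [← (Fin.consEquiv (fun _ : Fin (n + 1) => Bool)).sum_comp]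
  rw [Fintype.sum_prod_type, Fintype.sum_bool]
  congr 1
  · refine Finset.sum_congr rfl fun b _ => ?_
    congr 1
    simp only [sgsum, Fin.sum_univ_succ, Fin.consEquiv, Equiv.coe_fn_mk, Fin.cons_zero,
      Fin.cons_succ, sg]
    simp
    ring
  · refine Finset.sum_congr rfl fun b _ => ?_
    congr 1
    simp only [sgsum, Fin.sum_univ_succ, Fin.consEquiv, Equiv.coe_fn_mk, Fin.cons_zero,
      Fin.cons_succ, sg]
    simp
    ring

theorem mom2 (n : ℕ) : ∀ (u : Fin n → ℝ) (x : ℝ),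
    ∑ b : Fin n → Bool, (x + sgsum u b) ^ 2 = 2 ^ n * (x ^ 2 + ∑ s, u s ^ 2) := by
  induction n with
  | zero => intro u x; simp [sgsum]
  | succ n ih =>
    intro u x
    rw [sum_succ u (fun y => y ^ 2) x, ih, ih, Fin.sum_univ_succ, pow_succ]
    ring

theorem mom4 (n : ℕ) : ∀ (u : Fin n → ℝ) (x : ℝ),
    ∑ b : Fin n → Bool, (x + sgsum u b) ^ 4 ≤
      2 ^ n * (x ^ 4 + 6 * x ^ 2 * (∑ s, u s ^ 2) + 3 * (∑ s, u s ^ 2) ^ 2) := by
  induction n with
  | zero => intro u x; simp [sgsum]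
  | succ n ih =>
    intro u x
    rw [sum_succ u (fun y => y ^ 4) x, Fin.sum_univ_succ, pow_succ]
    have h1 := ih (fun i => u i.succ) (x + u 0)
    have h2 := ih (fun i => u i.succ) (x - u 0)
    have hT : 0 ≤ ∑ i : Fin n, u i.succ ^ 2 := Finset.sum_nonneg fun i _ => sq_nonneg _
    generalize (∑ i : Fin n, u i.succ ^ 2) = T at *
    have h3 : (0 : ℝ) < 2 ^ n := by positivity
    generalize u 0 = v at *
    refine (add_le_add h1 h2).trans ?_
    have h4 : ((x + v) ^ 4 + 6 * (x + v) ^ 2 * T + 3 * T ^ 2) +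
        ((x - v) ^ 4 + 6 * (x - v) ^ 2 * T + 3 * T ^ 2) ≤
        2 * (x ^ 4 + 6 * x ^ 2 * (v ^ 2 + T) + 3 * (v ^ 2 + T) ^ 2) := by
      nlinarith [sq_nonneg (v ^ 2)]
    calc _ = 2 ^ n * (((x + v) ^ 4 + 6 * (x + v) ^ 2 * T + 3 * T ^ 2) +
        ((x - v) ^ 4 + 6 * (x - v) ^ 2 * T + 3 * T ^ 2)) := by ring
      _ ≤ 2 ^ n * (2 * (x ^ 4 + 6 * x ^ 2 * (v ^ 2 + T) + 3 * (v ^ 2 + T) ^ 2)) :=
          mul_le_mul_of_nonneg_left h4 h3.le
      _ = _ := by ring

theorem mom6 (n : ℕ) : ∀ (u : Fin n → ℝ) (x : ℝ),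
    ∑ b : Fin n → Bool, (x + sgsum u b) ^ 6 ≤
      2 ^ n * (x ^ 6 + 15 * x ^ 4 * (∑ s, u s ^ 2) + 45 * x ^ 2 * (∑ s, u s ^ 2) ^ 2 +
        15 * (∑ s, u s ^ 2) ^ 3) := by
  induction n with
  | zero => intro u x; simp [sgsum]
  | succ n ih =>
    intro u x
    rw [sum_succ u (fun y => y ^ 6) x, Fin.sum_univ_succ, pow_succ]
    have h1 := ih (fun i => u i.succ) (x + u 0)
    have h2 := ih (fun i => u i.succ) (x - u 0)
    have hT : 0 ≤ ∑ i : Fin n, u i.succ ^ 2 := Finset.sum_nonneg fun i _ => sq_nonneg _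
    generalize (∑ i : Fin n, u i.succ ^ 2) = T at *
    have h3 : (0 : ℝ) < 2 ^ n := by positivity
    generalize u 0 = v at *
    refine (add_le_add h1 h2).trans ?_
    have hx2 : 0 ≤ x ^ 2 := sq_nonneg _
    have hv2 : 0 ≤ v ^ 2 := sq_nonneg _
    have h4 : ((x + v) ^ 6 + 15 * (x + v) ^ 4 * T + 45 * (x + v) ^ 2 * T ^ 2 + 15 * T ^ 3) +
        ((x - v) ^ 6 + 15 * (x - v) ^ 4 * T + 45 * (x - v) ^ 2 * T ^ 2 + 15 * T ^ 3) ≤
        2 * (x ^ 6 + 15 * x ^ 4 * (v ^ 2 + T) + 45 * x ^ 2 * (v ^ 2 + T) ^ 2 +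
          15 * (v ^ 2 + T) ^ 3) := by
      have e : 2 * (x ^ 6 + 15 * x ^ 4 * (v ^ 2 + T) + 45 * x ^ 2 * (v ^ 2 + T) ^ 2 +
          15 * (v ^ 2 + T) ^ 3) - (((x + v) ^ 6 + 15 * (x + v) ^ 4 * T +
            45 * (x + v) ^ 2 * T ^ 2 + 15 * T ^ 3) +
        ((x - v) ^ 6 + 15 * (x - v) ^ 4 * T + 45 * (x - v) ^ 2 * T ^ 2 + 15 * T ^ 3)) =
          60 * (x ^ 2 * v ^ 4) + 28 * v ^ 6 + 60 * (T * v ^ 4) := by ring
      have : 0 ≤ 60 * (x ^ 2 * v ^ 4) + 28 * v ^ 6 + 60 * (T * v ^ 4) := by positivity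
      linarith
    calc _ = 2 ^ n * (((x + v) ^ 6 + 15 * (x + v) ^ 4 * T + 45 * (x + v) ^ 2 * T ^ 2 +
          15 * T ^ 3) +
        ((x - v) ^ 6 + 15 * (x - v) ^ 4 * T + 45 * (x - v) ^ 2 * T ^ 2 + 15 * T ^ 3)) := by ring
      _ ≤ 2 ^ n * (2 * (x ^ 6 + 15 * x ^ 4 * (v ^ 2 + T) + 45 * x ^ 2 * (v ^ 2 + T) ^ 2 +
          15 * (v ^ 2 + T) ^ 3)) := mul_le_mul_of_nonneg_left h4 h3.le
      _ = _ := by ring

theorem momexp (n : ℕ) : ∀ (u : Fin n → ℝ) (x l : ℝ), 0 ≤ l → 2 * l * (∑ s, u s ^ 2) < 1 →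
    ∑ b : Fin n → Bool, exp (l * (x + sgsum u b) ^ 2) ≤
      2 ^ n * exp (-(1 / 2) * log (1 - 2 * l * (∑ s, u s ^ 2)) +
        l / (1 - 2 * l * (∑ s, u s ^ 2)) * x ^ 2) := by
  induction n with
  | zero => intro u x l hl _; simp [sgsum]
  | succ n ih =>
    intro u x l hl hlt
    rw [sum_succ u (fun y => exp (l * y ^ 2)) x, Fin.sum_univ_succ, pow_succ]
    rw [Fin.sum_univ_succ] at hlt
    have hT : 0 ≤ ∑ i : Fin n, u i.succ ^ 2 := Finset.sum_nonneg fun i _ => sq_nonneg _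
    have hT' : 2 * l * (∑ i : Fin n, u i.succ ^ 2) < 1 := by
      have : 0 ≤ l * u 0 ^ 2 := by positivity
      nlinarith
    have h1 := ih (fun i => u i.succ) (x + u 0) l hl hT'
    have h2 := ih (fun i => u i.succ) (x - u 0) l hl hT'
    generalize (∑ i : Fin n, u i.succ ^ 2) = T at *
    have h3 : (0 : ℝ) < 2 ^ n := by positivity
    generalize u 0 = v at *
    refine (add_le_add h1 h2).trans ?_
    have hD' : 0 < 1 - 2 * l * T := by linarith
    have hD : 0 < 1 - 2 * l * (v ^ 2 + T) := by linarith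
    set D' := 1 - 2 * l * T with hD'def
    set D := 1 - 2 * l * (v ^ 2 + T) with hDdef
    set a := l / D' with hadef
    have ha : 0 ≤ a := div_nonneg hl hD'.le
    have haD : a * D' = l := div_mul_cancel₀ l hD'.ne'
    have hDD : D / D' = 1 - 2 * a * v ^ 2 := by
      rw [div_eq_iff hD'.ne']
      have : (1 - 2 * a * v ^ 2) * D' = D' - 2 * (a * D') * v ^ 2 := by ring
      rw [this, haD, hDdef, hD'def]; ring
    have hr : 0 < 1 - 2 * a * v ^ 2 := by rw [← hDD]; exact div_pos hD hD'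
    -- the mean of the two exponentials
    have h5 : exp (a * (x + v) ^ 2) + exp (a * (x - v) ^ 2) ≤
        2 * exp (a * x ^ 2 + a * v ^ 2 + 2 * a ^ 2 * x ^ 2 * v ^ 2) := by
      have e1 : exp (a * (x + v) ^ 2) = exp (a * x ^ 2 + a * v ^ 2) * exp (2 * a * x * v) := by
        rw [← exp_add]; congr 1; ring
      have e2 : exp (a * (x - v) ^ 2) = exp (a * x ^ 2 + a * v ^ 2) * exp (-(2 * a * x * v)) := by
        rw [← exp_add]; congr 1; ring
      have e3 := Real.cosh_le_exp_half_sq (2 * a * x * v)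
      rw [Real.cosh_eq] at e3
      have e4 : exp (a * x ^ 2 + a * v ^ 2 + 2 * a ^ 2 * x ^ 2 * v ^ 2) =
          exp (a * x ^ 2 + a * v ^ 2) * exp ((2 * a * x * v) ^ 2 / 2) := by
        rw [← exp_add]; congr 1; ring
      rw [e1, e2, e4]
      have e5 : 0 < exp (a * x ^ 2 + a * v ^ 2) := exp_pos _
      nlinarith
    have h6 : a * v ^ 2 ≤ -(1 / 2) * log D + (1 / 2) * log D' := by
      have e1 : log (D / D') ≤ D / D' - 1 := Real.log_le_sub_one_of_pos (div_pos hD hD')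
      rw [Real.log_div hD.ne' hD'.ne', hDD] at e1
      linarith
    have h7 : a + 2 * a ^ 2 * v ^ 2 ≤ l / D := by
      have e1 : l / D = a / (1 - 2 * a * v ^ 2) := by
        rw [← hDD, hadef]
        field_simp
      rw [e1, le_div_iff₀ hr]
      have : 0 ≤ a * (a * v ^ 2) ^ 2 := by positivity
      nlinarith
    have h8 : -(1 / 2) * log D' + (a * x ^ 2 + a * v ^ 2 + 2 * a ^ 2 * x ^ 2 * v ^ 2) ≤
        -(1 / 2) * log D + l / D * x ^ 2 := by
      have := mul_le_mul_of_nonneg_right h7 (sq_nonneg x)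
      nlinarith
    have h9 : exp (-(1 / 2) * log D' + a * (x + v) ^ 2) +
        exp (-(1 / 2) * log D' + a * (x - v) ^ 2) ≤
        2 * exp (-(1 / 2) * log D + l / D * x ^ 2) := by
      calc _ = exp (-(1 / 2) * log D') * (exp (a * (x + v) ^ 2) + exp (a * (x - v) ^ 2)) := by
            rw [exp_add, exp_add]; ring
        _ ≤ exp (-(1 / 2) * log D') *
            (2 * exp (a * x ^ 2 + a * v ^ 2 + 2 * a ^ 2 * x ^ 2 * v ^ 2)) :=
            mul_le_mul_of_nonneg_left h5 (exp_pos _).le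
        _ = 2 * exp (-(1 / 2) * log D' +
            (a * x ^ 2 + a * v ^ 2 + 2 * a ^ 2 * x ^ 2 * v ^ 2)) := by
            rw [exp_add (-(1 / 2) * log D')]; ring
        _ ≤ _ := by
            have := exp_le_exp.2 h8
            linarith
    calc _ = 2 ^ n * (exp (-(1 / 2) * log D' + a * (x + v) ^ 2) +
        exp (-(1 / 2) * log D' + a * (x - v) ^ 2)) := by ring
      _ ≤ 2 ^ n * (2 * exp (-(1 / 2) * log D + l / D * x ^ 2)) :=
          mul_le_mul_of_nonneg_left h9 h3.le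
      _ = _ := by ring

/-- transport to an arbitrary finite type -/
theorem sum_transport {S : Type} [Fintype S] [DecidableEq S] (u : S → ℝ) (f : ℝ → ℝ) :
    ∑ b : S → Bool, f (sgsum u b) =
      ∑ b : Fin (Fintype.card S) → Bool,
        f (0 + sgsum (fun i => u ((Fintype.equivFin S).symm i)) b) := by
  refine Fintype.sum_equiv (Equiv.arrowCongr (Fintype.equivFin S) (Equiv.refl Bool)) _ _ ?_
  intro b
  congr 1
  rw [zero_add, sgsum, sgsum]
  refine Fintype.sum_equiv (Fintype.equivFin S) _ _ ?_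
  intro s
  simp

theorem exp_neg_le {y : ℝ} (hy : 0 ≤ y) : exp (-y) ≤ 1 - y + y ^ 2 / 2 := by
  have h1 := Real.quadratic_le_exp_of_nonneg hy
  have h2 : exp (-y) * exp y = 1 := by rw [← exp_add]; simp
  have h3 : 0 < exp (-y) := exp_pos _
  have h5 : 0 ≤ 1 - y + y ^ 2 / 2 := by nlinarith [sq_nonneg (y - 1)]
  have h6 : exp (-y) * (1 + y + y ^ 2 / 2) ≤ 1 := by
    calc _ ≤ exp (-y) * exp y := mul_le_mul_of_nonneg_left h1 h3.le
      _ = 1 := h2
  have h7 : (1 : ℝ) ≤ (1 - y + y ^ 2 / 2) * (1 + y + y ^ 2 / 2) := by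
    have : 0 ≤ y ^ 4 := by positivity
    nlinarith
  have h8 : 0 < 1 + y + y ^ 2 / 2 := by positivity
  exact le_of_mul_le_mul_right (h6.trans h7) h8

theorem goalRAD : G_RAD := by
  intro S _ _ u
  have hsum : ∑ s, u s ^ 2 = ∑ i, u ((Fintype.equivFin S).symm i) ^ 2 :=
    Fintype.sum_equiv (Fintype.equivFin S) _ _ (by intro s; simp)
  have hT : 0 ≤ ∑ s, u s ^ 2 := Finset.sum_nonneg fun i _ => sq_nonneg _
  have m2 : ∑ b : S → Bool, (sgsum u b) ^ 2 = 2 ^ Fintype.card S * (∑ s, u s ^ 2) := by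
    rw [sum_transport u (fun y => y ^ 2), mom2, hsum]; ring
  have m4 : ∑ b : S → Bool, (sgsum u b) ^ 4 ≤
      2 ^ Fintype.card S * (3 * (∑ s, u s ^ 2) ^ 2) := by
    rw [sum_transport u (fun y => y ^ 4), hsum]
    refine (mom4 _ _ 0).trans (le_of_eq ?_)
    ring
  refine ⟨m2, m4, ?_, ?_, ?_⟩
  · rw [sum_transport u (fun y => y ^ 6), hsum]
    refine (mom6 _ _ 0).trans (le_of_eq ?_)
    ring
  · intro l hl hl4
    rw [sum_transport u (fun y => exp (l * y ^ 2))]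
    rw [hsum] at hl4 ⊢
    have h0 := momexp (Fintype.card S) (fun i => u ((Fintype.equivFin S).symm i)) 0 l hl
      (by linarith)
    refine h0.trans ?_
    refine mul_le_mul_of_nonneg_left ?_ (by positivity)
    rw [exp_le_exp]
    rw [hsum] at hT
    generalize (∑ i, u ((Fintype.equivFin S).symm i) ^ 2) = T at *
    have ht0 : 0 ≤ l * T := mul_nonneg hl hT
    have e0 : 1 - 2 * l * T = 1 - 2 * (l * T) := by ring
    rw [e0]
    generalize l * T = t at *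
    have hD : 0 < 1 - 2 * t := by linarith
    have e1 : 1 - (1 - 2 * t)⁻¹ ≤ log (1 - 2 * t) := Real.one_sub_inv_le_log_of_pos hD
    have e2 : (1 - 2 * t)⁻¹ ≤ 1 + 2 * t + 8 * t ^ 2 := by
      rw [inv_le_iff_one_le_mul₀ hD]
      nlinarith [mul_nonneg ht0 (sub_nonneg.2 hl4), mul_nonneg (mul_nonneg ht0 ht0) (sub_nonneg.2 hl4)]
    simp only [ne_eq, OfNat.ofNat_ne_zero, not_false_eq_true, zero_pow, mul_zero, add_zero]
    linarith
  · intro l hl
    have h1 : ∑ b : S → Bool, exp (-(l * (sgsum u b) ^ 2)) ≤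
        ∑ b : S → Bool, (1 - l * (sgsum u b) ^ 2 + l ^ 2 / 2 * (sgsum u b) ^ 4) := by
      refine Finset.sum_le_sum fun b _ => ?_
      refine (exp_neg_le (by positivity)).trans (le_of_eq ?_)
      ring
    have h2 : ∑ b : S → Bool, (1 - l * (sgsum u b) ^ 2 + l ^ 2 / 2 * (sgsum u b) ^ 4) =
        2 ^ Fintype.card S - l * ∑ b : S → Bool, (sgsum u b) ^ 2 +
          l ^ 2 / 2 * ∑ b : S → Bool, (sgsum u b) ^ 4 := by
      rw [Finset.sum_add_distrib, Finset.sum_sub_distrib, Finset.mul_sum, Finset.mul_sum]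
      simp
    refine h1.trans ?_
    rw [h2, m2]
    have h3 : (0 : ℝ) < 2 ^ Fintype.card S := by positivity
    have h4 := Real.add_one_le_exp (-(l * (∑ s, u s ^ 2)) + 3 / 2 * (l * (∑ s, u s ^ 2)) ^ 2)
    have h5 := mul_le_mul_of_nonneg_left m4 (show (0 : ℝ) ≤ l ^ 2 / 2 by positivity)
    have h6 := mul_le_mul_of_nonneg_left h4 h3.le
    refine le_trans ?_ h6
    refine (add_le_add le_rfl h5).trans (le_of_eq ?_)
    ring

end Pool.Agent.Helper35.BC
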